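import Pool.Agent.H484.AL.Stm

/-!
Project AL (helper484), problem MP_6b2836_nt: part `S_CFN` (number of conflicting pairs of cells),
by helper947.
-/

set_option autoImplicit false

namespace Pool.Agent.H484.AL

open Finset
open scoped Classical

namespace CFN

theorem mem_Om {e J t0 t1 : ℕ} {w : ℕ × (Fin e → ℕ)} :
    w ∈ Om e J t0 t1 ↔ w.1 ∈ Ico t0 t1 ∧ ∀ i, w.2 i ∈ Ico (3 * J) (5 * J) := by
  rw [Om, mem_product, jset, Fintype.mem_piFinset]

/-- A set of pairs in which one coordinate is determined by the others. -/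
theorem card_le {e J t0 t1 : ℕ} (i : Fin e)
    (S : Finset ((ℕ × (Fin e → ℕ)) × (ℕ × (Fin e → ℕ))))
    (hS : ∀ z ∈ S, z.1 ∈ Om e J t0 t1 ∧ z.2 ∈ Om e J t0 t1)
    (h : ∀ z ∈ S, ∀ z' ∈ S, z.1 = z'.1 → z.2.1 = z'.2.1 → (∀ k, k ≠ i → z.2.2 k = z'.2.2 k) →
      z.2.2 i = z'.2.2 i) :
    S.card ≤ (t1 - t0) ^ 2 * (2 * J) ^ (2 * e - 1) := by
  have he : 1 ≤ e := Nat.one_le_of_lt i.2
  set U : Finset ((ℕ × ℕ) × ((Fin e → ℕ) × ({k : Fin e // k ≠ i} → ℕ))) :=
    (Ico t0 t1 ×ˢ Ico t0 t1) ×ˢ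
      (jset e J ×ˢ Fintype.piFinset (fun _ : {k : Fin e // k ≠ i} => Ico (3 * J) (5 * J))) with hU
  have hUc : U.card = (t1 - t0) ^ 2 * (2 * J) ^ (2 * e - 1) := by
    have h1 : 5 * J - 3 * J = 2 * J := by omega
    have h2 : Fintype.card {k : Fin e // k ≠ i} = e - 1 := by
      rw [Fintype.card_subtype, filter_ne', card_erase_of_mem (mem_univ i), card_univ,
        Fintype.card_fin]
    rw [hU, card_product, card_product, card_product, jset, Fintype.card_piFinset,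
      Fintype.card_piFinset, prod_const, prod_const, Nat.card_Ico, Nat.card_Ico, card_univ,
      card_univ, Fintype.card_fin, h1, h2, ← pow_add, ← pow_two]
    congr 2
    omega
  rw [← hUc]
  refine card_le_card_of_injOn
    (fun z => ((z.1.1, z.2.1), (z.1.2, fun k : {k : Fin e // k ≠ i} => z.2.2 k.1))) ?_ ?_
  · intro z hz
    obtain ⟨h1, h2⟩ := hS z hz
    rw [mem_Om] at h1 h2
    rw [hU]
    simp only [coe_product, Set.mem_prod, mem_coe]
    refine ⟨⟨h1.1, h2.1⟩, ?_, ?_⟩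
    · rw [jset, Fintype.mem_piFinset]
      exact h1.2
    · rw [Fintype.mem_piFinset]
      exact fun k => h2.2 k.1
  · intro z hz z' hz' hzz
    simp only [Prod.mk.injEq] at hzz
    obtain ⟨⟨h1, h2⟩, h3, h4⟩ := hzz
    have h5 : ∀ k, k ≠ i → z.2.2 k = z'.2.2 k := fun k hk => congrFun h4 ⟨k, hk⟩
    have h6 : z.1 = z'.1 := Prod.ext h1 h3
    have h7 := h z hz z' hz' h6 h2 h5
    refine Prod.ext h6 (Prod.ext h2 (funext fun k => ?_))
    by_cases hk : k = i
    · rw [hk]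
      exact h7
    · exact h5 k hk

end CFN

open CFN in
/-- Part CFN. -/
theorem t_CFN : S_CFN := by
  intro e J t0 t1 he
  set T := Om e J t0 t1 ×ˢ Om e J t0 t1 with hT
  set S0 := T.filter (fun z => z.1.1 + ∑ i, z.1.2 i = z.2.1 + ∑ i, z.2.2 i) with hS0
  set S1 : Fin e → Finset ((ℕ × (Fin e → ℕ)) × (ℕ × (Fin e → ℕ))) := fun i =>
    T.filter (fun z => z.1.2 i = z.2.2 i) with hS1
  have hsub : T.filter (fun z => conf e z.1 z.2) ⊆ S0 ∪ univ.biUnion S1 := by
    intro z hz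
    rw [mem_filter] at hz
    obtain ⟨hz1, -, hz2 | hz2⟩ := hz
    · obtain ⟨i, hi⟩ := hz2
      rw [mem_union]
      right
      rw [mem_biUnion]
      exact ⟨i, mem_univ i, mem_filter.mpr ⟨hz1, hi⟩⟩
    · rw [mem_union]
      left
      exact mem_filter.mpr ⟨hz1, hz2⟩
  have hc0 : S0.card ≤ (t1 - t0) ^ 2 * (2 * J) ^ (2 * e - 1) := by
    refine card_le ⟨0, he⟩ S0 (fun z hz => ?_) ?_
    · exact mem_product.mp (mem_filter.mp hz).1
    · intro z hz z' hz' h1 h2 h3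
      have k1 := (mem_filter.mp hz).2
      have k2 := (mem_filter.mp hz').2
      rw [h1, h2, k2] at k1
      have k3 : ∑ i, z.2.2 i = ∑ i, z'.2.2 i := by omega
      rw [← add_sum_erase _ _ (mem_univ (⟨0, he⟩ : Fin e)),
        ← add_sum_erase univ (fun i => z'.2.2 i) (mem_univ (⟨0, he⟩ : Fin e))] at k3
      have k4 : ∑ i ∈ univ.erase (⟨0, he⟩ : Fin e), z.2.2 i =
          ∑ i ∈ univ.erase (⟨0, he⟩ : Fin e), z'.2.2 i :=
        sum_congr rfl fun k hk => h3 k (ne_of_mem_erase hk)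
      rw [k4] at k3
      exact Nat.add_right_cancel k3
  have hc1 : ∀ i, (S1 i).card ≤ (t1 - t0) ^ 2 * (2 * J) ^ (2 * e - 1) := by
    intro i
    refine card_le i (S1 i) (fun z hz => ?_) ?_
    · exact mem_product.mp (mem_filter.mp hz).1
    · intro z hz z' hz' h1 h2 h3
      have k1 : z.1.2 i = z.2.2 i := (mem_filter.mp hz).2
      have k2 : z'.1.2 i = z'.2.2 i := (mem_filter.mp hz').2
      rw [← k1, ← k2, h1]
  calc (T.filter (fun z => conf e z.1 z.2)).card ≤ (S0 ∪ univ.biUnion S1).card :=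
        card_le_card hsub
    _ ≤ S0.card + (univ.biUnion S1).card := card_union_le _ _
    _ ≤ S0.card + ∑ i, (S1 i).card := Nat.add_le_add_left card_biUnion_le _
    _ ≤ (t1 - t0) ^ 2 * (2 * J) ^ (2 * e - 1) +
        ∑ _i : Fin e, (t1 - t0) ^ 2 * (2 * J) ^ (2 * e - 1) :=
        Nat.add_le_add hc0 (sum_le_sum fun i _ => hc1 i)
    _ = (t1 - t0) ^ 2 * (e + 1) * (2 * J) ^ (2 * e - 1) := by
        rw [sum_const, card_univ, Fintype.card_fin, smul_eq_mul]
        ring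

end Pool.Agent.H484.AL
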